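import Mathlib
import Pool.Agent.Y970.PX.Stm
import Pool.Agent.W346.PV.Newt

/-! Project PX: elementary facts (helper433). -/

set_option autoImplicit false

namespace Pool.Agent.Y433.PX

open Finset Polynomial Pool.Agent.W89.VP Pool.Agent.Y970.PX

theorem mem_VD {t k N : ℕ} (p : (Fin t → ℕ) × (Fin t → ℕ)) :
    p ∈ VD t k N ↔ ((∀ i, 1 ≤ p.1 i ∧ p.1 i ≤ N) ∧ (∀ i, 1 ≤ p.2 i ∧ p.2 i ≤ N)) ∧
      (∀ j : Fin k, ∑ i : Fin t, p.1 i ^ (j.val + 1) = ∑ i : Fin t, p.2 i ^ (j.val + 1)) ∧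
      ∀ i j, p.1 i ≠ p.2 j := by
  unfold VD VS
  simp only [Finset.mem_filter, Finset.mem_product, Fintype.mem_piFinset, Finset.mem_Icc]
  tauto

theorem Pr_eval {s : ℕ} (y : Fin s → ℕ) (a : ℤ) : (Pr y).eval a = ∏ i, (a - (y i : ℤ)) := by
  unfold Pr
  rw [eval_prod]
  simp

theorem Pr_self {s : ℕ} (y : Fin s → ℕ) (i : Fin s) : (Pr y).eval (y i : ℤ) = 0 := by
  rw [Pr_eval]
  exact Finset.prod_eq_zero (Finset.mem_univ i) (sub_self _)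

theorem Dp_y {s : ℕ} (x y : Fin s → ℕ) (j : Fin s) :
    (Dp x y).eval (y j : ℤ) = ∏ i, ((y j : ℤ) - (x i : ℤ)) := by
  unfold Dp
  rw [eval_sub, Pr_self, sub_zero, Pr_eval]

theorem Dp_y_abs {s : ℕ} (x y : Fin s → ℕ) (j : Fin s) :
    ((Dp x y).eval (y j : ℤ)).natAbs = ∏ i, ds (x i) (y j) := by
  rw [Dp_y, ← Int.natAbsHom_apply, map_prod]
  refine Finset.prod_congr rfl fun i _ => ?_
  rw [Int.natAbsHom_apply]
  unfold ds
  rw [← Int.natAbs_neg, neg_sub]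

theorem Dp_x {s : ℕ} (x y : Fin s → ℕ) (i : Fin s) :
    (Dp x y).eval (x i : ℤ) = -∏ j, ((x i : ℤ) - (y j : ℤ)) := by
  unfold Dp
  rw [eval_sub, Pr_self, zero_sub, Pr_eval]

theorem Dp_x_ne {s k N : ℕ} {x y : Fin s → ℕ} (h : (x, y) ∈ VD s k N) (i : Fin s) :
    (Dp x y).eval (x i : ℤ) ≠ 0 := by
  rw [mem_VD] at h
  rw [Dp_x, neg_ne_zero, Finset.prod_ne_zero_iff]
  intro j _ h0
  exact h.2.2 i j (by simpa [sub_eq_zero] using h0)

theorem Dp_y_ne {s k N : ℕ} {x y : Fin s → ℕ} (h : (x, y) ∈ VD s k N) (j : Fin s) :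
    (Dp x y).eval (y j : ℤ) ≠ 0 := by
  rw [mem_VD] at h
  rw [Dp_y, Finset.prod_ne_zero_iff]
  intro i _ h0
  exact h.2.2 i j (by simpa [sub_eq_zero, eq_comm] using h0)

theorem ds_pos {s k N : ℕ} {x y : Fin s → ℕ} (h : (x, y) ∈ VD s k N) (i j : Fin s) :
    1 ≤ ds (x i) (y j) := by
  rw [mem_VD] at h
  unfold ds
  have h1 := h.2.2 i j
  simp only at h1
  omega

theorem Dp_ne {s k N : ℕ} {x y : Fin s → ℕ} (h : (x, y) ∈ VD s k N) (hs : 1 ≤ s) :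
    Dp x y ≠ 0 := by
  intro h0
  have h1 := Dp_x_ne h ⟨0, hs⟩
  rw [h0] at h1
  simp at h1

theorem Dp_deg {s k N : ℕ} {x y : Fin s → ℕ} (h : (x, y) ∈ VD s k N) :
    (Dp x y).degree < ((s - k : ℕ) : WithBot ℕ) := by
  rw [mem_VD] at h
  exact Pool.Agent.W346.PV.Newt.main s k x y h.2.1

theorem Dp_natDeg {s k N : ℕ} {x y : Fin s → ℕ} (h : (x, y) ∈ VD s k N) :
    (Dp x y).natDegree ≤ s := by
  by_cases h0 : Dp x y = 0
  · rw [h0, natDegree_zero]; omega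
  · have h1 := Dp_deg h
    rw [degree_eq_natDegree h0] at h1
    have h2 : (Dp x y).natDegree < s - k := by exact_mod_cast h1
    omega

theorem Dp_ht (hH : HTBStm) {s k N : ℕ} {x y : Fin s → ℕ} (h : (x, y) ∈ VD s k N) :
    ht N (Dp x y) ≤ 2 ^ (s + 1) * N ^ s := by
  rw [mem_VD] at h
  exact hH.2.2.2 s N x y (fun i => (h.1.1 i).2) (fun i => (h.1.2 i).2)

end Pool.Agent.Y433.PX
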