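import Pool.Agent.Y433.PX.Base

/-! Project PX: the closure inequality (helper433). -/

set_option autoImplicit false

namespace Pool.Agent.Y433.PX.Clo

open Finset Polynomial Pool.Agent.W89.VP Pool.Agent.Y970.PX Pool.Agent.Y433.PX

theorem main (hL : LCMStm) (hG : GELFStm) (hH : HTBStm) : CLOStm := by
  intro s k hs hks _
  obtain ⟨C, hC⟩ := hG s
  refine ⟨(C * 2 ^ (s + 1)) ^ 1000 + 1, ?_⟩
  intro N hN x y hxy H E hHE hht j hlcm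
  have hN1 : 1 ≤ N := by omega
  have hNR : (1:ℝ) ≤ N := by exact_mod_cast hN1
  have hN0 : (0:ℝ) < N := by linarith
  have hD := Dp_ne hxy hs
  rw [hHE] at hD
  have hH0 : H ≠ 0 := left_ne_zero_of_mul hD
  have hE0 : E ≠ 0 := right_ne_zero_of_mul hD
  have hg := hC N hN1 H E hH0 hE0 (by rw [← hHE]; exact Dp_natDeg hxy)
  rw [← hHE] at hg
  have hg2 := hg.trans (Nat.mul_le_mul_left C (Dp_ht hH hxy))
  obtain ⟨V, hV⟩ : ∃ V, V = (H.eval (y j : ℤ)).natAbs := ⟨_, rfl⟩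
  obtain ⟨Ev, hEv⟩ : ∃ Ev, Ev = (E.eval (y j : ℤ)).natAbs := ⟨_, rfl⟩
  have hVE : V * Ev = ∏ i, ds (x i) (y j) := by
    rw [← Dp_y_abs, hHE, eval_mul, Int.natAbs_mul, hV, hEv]
  have hpos : ∀ i, 1 ≤ ds (x i) (y j) := fun i => ds_pos hxy i j
  have hprod : 0 < ∏ i, ds (x i) (y j) := Finset.prod_pos fun i _ => hpos i
  have hV1 : 1 ≤ V := by
    rcases Nat.eq_zero_or_pos V with h | h
    · rw [h, zero_mul] at hVE; omega
    · exact h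
  have hl := hL s (fun i => ds (x i) (y j)) V hpos hV1 (Dvd.intro Ev hVE)
  rw [← hV]
  obtain ⟨L, hLL⟩ : ∃ L, L = Finset.univ.lcm (fun i => ds (x i) (y j)) := ⟨_, rfl⟩
  obtain ⟨l, hll⟩ : ∃ l, l = Finset.univ.lcm (fun i => Nat.gcd V (ds (x i) (y j))) := ⟨_, rfl⟩
  rw [← hLL] at hlcm
  rw [← hll]
  rw [← hLL, ← hll, ← hVE] at hl
  have hlpos : 0 < l := by
    rw [hll, Nat.pos_iff_ne_zero, Ne, Finset.lcm_eq_zero_iff]
    rintro ⟨i, -, hi⟩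
    have := Nat.gcd_pos_of_pos_left (ds (x i) (y j)) hV1
    omega
  have hE1 : 0 < V * Ev := by rw [hVE]; exact hprod
  have h1 : V * L ≤ V * (l * Ev) := by
    have := Nat.le_of_dvd (Nat.mul_pos hlpos hE1) hl
    calc V * L ≤ l * (V * Ev) := this
      _ = _ := by ring
  have h2 : L ≤ l * Ev := Nat.le_of_mul_le_mul_left h1 hV1
  have hyN : ((y j : ℤ)).natAbs ≤ N := by
    rw [mem_VD] at hxy
    rw [Int.natAbs_natCast]
    exact (hxy.1.2 j).2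
  have h3 : Ev ≤ ht N E := by rw [hEv]; exact hH.1 N E _ hyN
  have h4 : L * ht N H ≤ l * (C * (2 ^ (s + 1) * N ^ s)) := by
    calc L * ht N H ≤ (l * Ev) * ht N H := Nat.mul_le_mul_right _ h2
      _ ≤ (l * ht N E) * ht N H := Nat.mul_le_mul_right _ (Nat.mul_le_mul_left _ h3)
      _ = l * (ht N H * ht N E) := by ring
      _ ≤ _ := Nat.mul_le_mul_left _ hg2
  have h5 : (L:ℝ) * (ht N H : ℝ) ≤ (l:ℝ) * ((C * 2 ^ (s + 1) : ℕ) : ℝ) * (N:ℝ) ^ (s:ℝ) := by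
    rw [Real.rpow_natCast]
    have : ((L * ht N H : ℕ) : ℝ) ≤ ((l * (C * (2 ^ (s + 1) * N ^ s)) : ℕ) : ℝ) := by
      exact_mod_cast h4
    push_cast at this ⊢
    linarith
  have h6 : (N:ℝ) ^ ((s : ℝ) - ((s - k : ℕ) : ℝ) - (s : ℝ) / 250) *
      (N : ℝ) ^ (((s - k : ℕ) : ℝ) + (s : ℝ) / 50) ≤ (L:ℝ) * (ht N H : ℝ) :=
    mul_le_mul hlcm hht (by positivity) (by positivity)
  rw [← Real.rpow_add hN0] at h6
  have h7 : (s : ℝ) - ((s - k : ℕ) : ℝ) - (s : ℝ) / 250 + (((s - k : ℕ) : ℝ) + (s : ℝ) / 50) =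
      3 * (s:ℝ) / 200 + (s:ℝ) / 1000 + s := by ring
  rw [h7, Real.rpow_add hN0, Real.rpow_add hN0] at h6
  have h8 : ((C * 2 ^ (s + 1) : ℕ) : ℝ) ≤ (N:ℝ) ^ ((s:ℝ) / 1000) := by
    have h9 : (((C * 2 ^ (s + 1) : ℕ) : ℝ)) ^ (1000:ℝ) ≤ N := by
      have : ((((C * 2 ^ (s + 1)) ^ 1000 : ℕ)) : ℝ) ≤ N := by exact_mod_cast (by omega)
      have e : (((C * 2 ^ (s + 1) : ℕ) : ℝ)) ^ (1000:ℝ) =
          (((C * 2 ^ (s + 1) : ℕ) : ℝ)) ^ (1000:ℕ) := by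
        rw [← Real.rpow_natCast]; norm_num
      rw [e]
      exact_mod_cast this
    have h10 : (((C * 2 ^ (s + 1) : ℕ) : ℝ)) = ((((C * 2 ^ (s + 1) : ℕ) : ℝ)) ^ (1000:ℝ)) ^
        ((1:ℝ) / 1000) := by
      rw [← Real.rpow_mul (Nat.cast_nonneg _)]
      norm_num
    rw [h10]
    have hsR : (1:ℝ) ≤ s := by exact_mod_cast hs
    calc ((((C * 2 ^ (s + 1) : ℕ) : ℝ)) ^ (1000:ℝ)) ^ ((1:ℝ) / 1000) ≤ (N:ℝ) ^ ((1:ℝ) / 1000) :=
          Real.rpow_le_rpow (by positivity) h9 (by norm_num)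
      _ ≤ _ := Real.rpow_le_rpow_of_exponent_le hNR (by
          apply div_le_div_of_nonneg_right hsR (by norm_num))
  have hA : 0 < (N:ℝ) ^ (s:ℝ) := by positivity
  have hB : 0 < (N:ℝ) ^ ((s:ℝ) / 1000) := by positivity
  have hl0 : (0:ℝ) ≤ l := Nat.cast_nonneg _
  have h11 : (N:ℝ) ^ (3 * (s:ℝ) / 200) * (N:ℝ) ^ ((s:ℝ) / 1000) * (N:ℝ) ^ (s:ℝ) ≤
      (l:ℝ) * (N:ℝ) ^ ((s:ℝ) / 1000) * (N:ℝ) ^ (s:ℝ) := by
    refine (h6.trans h5).trans ?_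
    apply mul_le_mul_of_nonneg_right _ hA.le
    exact mul_le_mul_of_nonneg_left h8 hl0
  have h12 := le_of_mul_le_mul_right h11 hA
  exact le_of_mul_le_mul_right h12 hB

end Pool.Agent.Y433.PX.Clo
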