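import Pool.Agent.Y433.PX.Base

/-! Project PX: the count in a fibre (helper433). -/

set_option autoImplicit false

namespace Pool.Agent.Y433.PX.Fib

open Finset Polynomial Pool.Agent.W89.VP Pool.Agent.Y970.PX Pool.Agent.Y433.PX

open Classical in
theorem main (hDP : DIVPStm) (hY : YCStm) (hR : RECStm) (hG : GELFStm) (hH : HTBStm) :
    FIBStm := by
  intro s k T b ε hks hε
  obtain ⟨C0, hC0⟩ := hG s
  obtain ⟨K, hK⟩ : ∃ K, K = s + C0 * 2 ^ (s + 1) + 2 ^ (s + 1) := ⟨_, rfl⟩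
  obtain ⟨C1, hC1, hdp⟩ := hDP s K (ε / 2) (by linarith)
  obtain ⟨C2, hC2, hyc⟩ := hY s T b K (ε / 2) (by linarith)
  have hs1 : 1 ≤ s := by omega
  have hK1 : s ≤ K := by rw [hK, add_assoc]; exact Nat.le_add_right _ _
  have hK2 : C0 * 2 ^ (s + 1) ≤ K := by
    rw [hK]; exact (Nat.le_add_left _ _).trans (Nat.le_add_right _ _)
  have hK3 : 2 ^ (s + 1) ≤ K := by rw [hK]; exact Nat.le_add_left _ _
  refine ⟨C1 * (2 ^ s * 2 ^ s) * (C2 * s.factorial), by positivity, ?_⟩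
  intro N hN A F hA hF hcommon hdiv
  have hNR : (1:ℝ) ≤ N := by exact_mod_cast hN
  have hN0 : (0:ℝ) < N := by linarith
  rcases F.eq_empty_or_nonempty with rfl | ⟨p1, hp1⟩
  · rw [card_empty, Nat.cast_zero]; positivity
  have hp1V : (p1.1, p1.2) ∈ VD s k N := hF hp1
  obtain ⟨D1, hD1⟩ : ∃ D1, D1 = Dp p1.1 p1.2 := ⟨_, rfl⟩
  have hD1ne : D1 ≠ 0 := by rw [hD1]; exact Dp_ne hp1V hs1
  have hD1deg : D1.natDegree ≤ s := by rw [hD1]; exact Dp_natDeg hp1V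
  have hD1ht : ht N D1 ≤ 2 ^ (s + 1) * N ^ s := by rw [hD1]; exact Dp_ht hH hp1V
  -- bounds of coefficients
  have hcoef : ∀ (G : ℤ[X]) (M : ℕ), ht N G ≤ M → ∀ l, (G.coeff l).natAbs ≤ M := by
    intro G M hG l
    have h1 := hH.2.2.1 N G l
    have h2 : 1 ≤ N ^ l := Nat.one_le_pow _ _ hN
    calc (G.coeff l).natAbs ≤ (G.coeff l).natAbs * N ^ l := Nat.le_mul_of_pos_right _ h2
      _ ≤ ht N G := h1
      _ ≤ M := hG
  have hNs : N ^ s ≤ N ^ K := Nat.pow_le_pow_right hN hK1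
  have hKb : ∀ c : ℕ, c ≤ K → c * N ^ s ≤ K * N ^ K := fun c hc => Nat.mul_le_mul hc hNs
  have hdvd : ∀ H : ℤ[X], H ∣ D1 → H.natDegree ≤ s ∧ ∀ l, (H.coeff l).natAbs ≤ K * N ^ K := by
    rintro H ⟨E, hE⟩
    have hH0 : H ≠ 0 := by rintro rfl; rw [zero_mul] at hE; exact hD1ne hE
    have hE0 : E ≠ 0 := by rintro rfl; rw [mul_zero] at hE; exact hD1ne hE
    refine ⟨?_, ?_⟩
    · exact (natDegree_le_of_dvd ⟨E, hE⟩ hD1ne).trans hD1deg
    · apply hcoef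
      have h1 := hC0 N hN H E hH0 hE0 (by rw [← hE]; exact hD1deg)
      have h2 := hH.2.1 N E hN hE0
      calc ht N H ≤ ht N H * ht N E := Nat.le_mul_of_pos_right _ h2
        _ ≤ C0 * ht N (H * E) := h1
        _ = C0 * ht N D1 := by rw [hE]
        _ ≤ C0 * (2 ^ (s + 1) * N ^ s) := Nat.mul_le_mul_left _ hD1ht
        _ = (C0 * 2 ^ (s + 1)) * N ^ s := by ring
        _ ≤ K * N ^ K := hKb _ hK2
  obtain ⟨hfin, hcard⟩ := hdp N hN D1 hD1ne hD1deg (by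
    apply hcoef
    exact hD1ht.trans (hKb _ hK3))
  -- the sets
  set YS : ℤ[X] → Finset (Fin s) → Finset (Fin s) → Finset (Fin s → ℕ) := fun H A2 B2 =>
    (Fintype.piFinset fun _ : Fin s => Finset.Icc 1 N).filter (fun y : Fin s → ℕ =>
      ∃ x : Fin s → ℕ, (∀ i, 1 ≤ x i ∧ x i ≤ N) ∧ (∀ i, H.eval (x i : ℤ) ≠ 0) ∧
        ∀ j, j ∉ B2 → N ≤ A2.lcm (fun i => Nat.gcd (H.eval (y j : ℤ)).natAbs (ds (x i) (y j))))
    with hYS
  set RS : (Fin s → ℕ) → Finset (Fin s → ℕ) := fun y =>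
    (Fintype.piFinset fun _ : Fin s => Finset.Icc 1 N).filter (fun x : Fin s → ℕ =>
      (x, y) ∈ VD s k N ∧ ∀ i ∈ A, x i = p1.1 i) with hRS
  have hRSc : ∀ y, (RS y).card ≤ s.factorial := fun y => hR s k N A p1.1 y hA
  set GS : ℤ[X] → Finset (Fin s) → Finset (Fin s) → Finset ((Fin s → ℕ) × (Fin s → ℕ)) :=
    fun H A2 B2 => (YS H A2 B2).biUnion (fun y => (RS y).image (fun x => (x, y))) with hGS
  have hGSc : ∀ H ∈ hfin.toFinset, ∀ A2 B2 : Finset (Fin s), A2.card ≤ T → B2.card ≤ b →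
      ((GS H A2 B2).card : ℝ) ≤ C2 * (N:ℝ) ^ ((T:ℝ) + b + ε / 2) * s.factorial := by
    intro H hHm A2 B2 hA2 hB2
    rw [Set.Finite.mem_toFinset] at hHm
    have h1 : (GS H A2 B2).card ≤ (YS H A2 B2).card * s.factorial := by
      refine Finset.card_biUnion_le.trans ?_
      rw [← smul_eq_mul]
      refine Finset.sum_le_card_nsmul _ _ _ fun y _ => ?_
      exact Finset.card_image_le.trans (hRSc y)
    have h2 : ((YS H A2 B2).card : ℝ) ≤ C2 * (N:ℝ) ^ ((T:ℝ) + b + ε / 2) := by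
      have := hdvd H hHm
      exact hyc N hN H (this.1.trans hK1) this.2 A2 B2 hA2 hB2
    calc ((GS H A2 B2).card : ℝ) ≤ ((YS H A2 B2).card : ℝ) * s.factorial := by exact_mod_cast h1
      _ ≤ _ := mul_le_mul_of_nonneg_right h2 (Nat.cast_nonneg _)
  -- the covering
  set IX := hfin.toFinset ×ˢ ((Finset.univ : Finset (Finset (Fin s))) ×ˢ
    (Finset.univ : Finset (Finset (Fin s)))) with hIX
  set IX' := IX.filter (fun q => q.2.1.card ≤ T ∧ q.2.2.card ≤ b) with hIX'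
  have hcover : F ⊆ IX'.biUnion (fun q => GS q.1 q.2.1 q.2.2) := by
    intro p hp
    obtain ⟨H, hHp, hHp1, A2, B2, hA2, hB2, hl⟩ := hdiv p hp p1 hp1
    have hpV : (p.1, p.2) ∈ VD s k N := hF hp
    have hb := (mem_VD _).1 hpV
    rw [Finset.mem_biUnion]
    refine ⟨(H, A2, B2), ?_, ?_⟩
    · rw [hIX', Finset.mem_filter, hIX, Finset.mem_product, Finset.mem_product]
      refine ⟨⟨?_, Finset.mem_univ _, Finset.mem_univ _⟩, hA2, hB2⟩
      rw [Set.Finite.mem_toFinset]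
      show H ∣ D1
      rw [hD1]
      exact hHp1
    · rw [hGS]
      simp only
      rw [Finset.mem_biUnion]
      refine ⟨p.2, ?_, ?_⟩
      · rw [hYS]
        simp only
        rw [Finset.mem_filter]
        refine ⟨?_, p.1, hb.1.1, ?_, hl⟩
        · rw [Fintype.mem_piFinset]
          intro i
          exact Finset.mem_Icc.2 (hb.1.2 i)
        · intro i h0
          obtain ⟨E, hE⟩ := hHp
          apply Dp_x_ne hpV i
          rw [hE, eval_mul, h0, zero_mul]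
      · rw [Finset.mem_image]
        refine ⟨p.1, ?_, rfl⟩
        rw [hRS]
        simp only
        rw [Finset.mem_filter]
        refine ⟨?_, hpV, fun i hi => hcommon p hp p1 hp1 i hi⟩
        rw [Fintype.mem_piFinset]
        intro i
        exact Finset.mem_Icc.2 (hb.1.1 i)
  have h1 : (F.card : ℝ) ≤ ∑ q ∈ IX', ((GS q.1 q.2.1 q.2.2).card : ℝ) := by
    have := (Finset.card_le_card hcover).trans Finset.card_biUnion_le
    exact_mod_cast this
  have hB0 : 0 ≤ C2 * (N:ℝ) ^ ((T:ℝ) + b + ε / 2) * s.factorial := by positivity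
  have h2 : ∑ q ∈ IX', ((GS q.1 q.2.1 q.2.2).card : ℝ) ≤
      (IX'.card : ℝ) * (C2 * (N:ℝ) ^ ((T:ℝ) + b + ε / 2) * s.factorial) := by
    rw [← nsmul_eq_mul]
    refine Finset.sum_le_card_nsmul _ _ _ fun q hq => ?_
    rw [hIX', Finset.mem_filter, hIX, Finset.mem_product] at hq
    exact hGSc q.1 hq.1.1 q.2.1 q.2.2 hq.2.1 hq.2.2
  have h3 : (IX'.card : ℝ) ≤ (C1 * (N:ℝ) ^ (ε / 2)) * (2 ^ s * 2 ^ s) := by
    have e1 : IX'.card ≤ hfin.toFinset.card * (2 ^ s * 2 ^ s) := by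
      refine (Finset.card_filter_le _ _).trans (le_of_eq ?_)
      rw [hIX, Finset.card_product, Finset.card_product, Finset.card_univ, Fintype.card_finset,
        Fintype.card_fin]
    have e2 : ((hfin.toFinset.card : ℕ) : ℝ) ≤ C1 * (N:ℝ) ^ (ε / 2) := by
      rw [← Set.ncard_eq_toFinset_card _ hfin]
      exact hcard
    calc (IX'.card : ℝ) ≤ ((hfin.toFinset.card : ℕ) : ℝ) * (2 ^ s * 2 ^ s) := by exact_mod_cast e1
      _ ≤ _ := mul_le_mul_of_nonneg_right e2 (by positivity)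
  calc (F.card : ℝ) ≤ _ := h1
    _ ≤ (IX'.card : ℝ) * (C2 * (N:ℝ) ^ ((T:ℝ) + b + ε / 2) * s.factorial) := h2
    _ ≤ ((C1 * (N:ℝ) ^ (ε / 2)) * (2 ^ s * 2 ^ s)) *
        (C2 * (N:ℝ) ^ ((T:ℝ) + b + ε / 2) * s.factorial) := mul_le_mul_of_nonneg_right h3 hB0
    _ = C1 * (2 ^ s * 2 ^ s) * (C2 * s.factorial) *
        ((N:ℝ) ^ (ε / 2) * (N:ℝ) ^ ((T:ℝ) + b + ε / 2)) := by ring
    _ = _ := by
        rw [← Real.rpow_add hN0]
        congr 2
        ring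

end Pool.Agent.Y433.PX.Fib
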