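import Pool.Agent.Y433.PX.Base
import Pool.Agent.W154.PV.PV_DISJ

/-! Project PX: `x` is determined up to order by `y` and `s - k` coordinates (helper433). -/

set_option autoImplicit false

namespace Pool.Agent.Y433.PX.Rec

open Finset Polynomial Pool.Agent.W89.VP Pool.Agent.Y970.PX Pool.Agent.Y433.PX

theorem dvd_Pr {s : ℕ} (A : Finset (Fin s)) (x z : Fin s → ℕ) (h : ∀ i ∈ A, x i = z i) :
    (∏ i ∈ A, ((X : ℤ[X]) - C (z i : ℤ))) ∣ Pr x := by
  have e : ∏ i ∈ A, ((X : ℤ[X]) - C (z i : ℤ)) = ∏ i ∈ A, ((X : ℤ[X]) - C (x i : ℤ)) :=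
    Finset.prod_congr rfl fun i hi => by rw [h i hi]
  rw [e]
  unfold Pr
  exact Finset.prod_dvd_prod_of_subset _ _ _ (Finset.subset_univ A)

theorem main : RECStm := by
  classical
  intro s k N A z y hA
  rcases ((Fintype.piFinset fun _ : Fin s => Finset.Icc 1 N).filter (fun x : Fin s → ℕ =>
      (x, y) ∈ VD s k N ∧ ∀ i ∈ A, x i = z i)).eq_empty_or_nonempty with h | ⟨x0, h0⟩
  · have h' : ((Fintype.piFinset fun _ : Fin s => Finset.Icc 1 N).filter (fun x : Fin s → ℕ =>
      (x, y) ∈ VD s k N ∧ ∀ i ∈ A, x i = z i)).card = 0 := by rw [h, card_empty]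
    refine le_trans (le_of_eq ?_) (Nat.zero_le _)
    convert h'
  · rw [Finset.mem_filter] at h0
    obtain ⟨-, hx0, hz0⟩ := h0
    have hsub : ((Fintype.piFinset fun _ : Fin s => Finset.Icc 1 N).filter (fun x : Fin s → ℕ =>
      (x, y) ∈ VD s k N ∧ ∀ i ∈ A, x i = z i)) ⊆
        (Finset.univ : Finset (Equiv.Perm (Fin s))).image (fun σ : Equiv.Perm (Fin s) => x0 ∘ σ) := by
      intro x hx
      rw [Finset.mem_filter] at hx
      obtain ⟨-, hx1, hz1⟩ := hx
      have hd : Dp x y - Dp x0 y = 0 := by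
        apply eq_zero_of_dvd_of_degree_lt (p := ∏ i ∈ A, ((X : ℤ[X]) - C (z i : ℤ)))
        · have e : Dp x y - Dp x0 y = Pr x - Pr x0 := by unfold Dp; ring
          rw [e]
          exact dvd_sub (dvd_Pr A x z hz1) (dvd_Pr A x0 z hz0)
        · rw [degree_prod]
          simp only [degree_X_sub_C, Finset.sum_const, nsmul_eq_mul, mul_one]
          refine lt_of_lt_of_le (lt_of_le_of_lt (degree_sub_le _ _)
            (max_lt (Dp_deg hx1) (Dp_deg hx0))) ?_
          exact_mod_cast hA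
      have hP : Pr x0 = Pr x := by
        have e : Dp x y - Dp x0 y = Pr x - Pr x0 := by unfold Dp; ring
        rw [e, sub_eq_zero] at hd
        exact hd.symm
      obtain ⟨σ, hσ⟩ := Pool.Agent.W154.PV.perm_of_PP x0 x hP
      exact Finset.mem_image.2 ⟨σ, Finset.mem_univ _, hσ.symm⟩
    have hc := (Finset.card_le_card hsub).trans Finset.card_image_le
    rw [Finset.card_univ, Fintype.card_perm, Fintype.card_fin] at hc
    refine le_trans (le_of_eq ?_) hc
    congr 1

end Pool.Agent.Y433.PX.Rec
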